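import Pool.Agent.Q91.PT.Stm

/-!
# Job SPL of project PT
-/

set_option autoImplicit false

namespace Pool.Agent.Q53.PT.SPL

open Finset Pool.Agent.H976R2 Pool.Agent.H976R2.Lip Pool.Agent.H739K Pool.Agent.H924P
open Pool.Agent.Q91.PT
open scoped Classical

/-- a part of a self-avoiding word is self-avoiding -/
theorem saw_block (w : List Dir) (h : Saw w) (i s : ℕ) : Saw ((w.drop i).take s) := by
  have h1 : Saw (w.drop i) := by
    rw [← List.take_append_drop i w] at h
    exact h.right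
  rw [← List.take_append_drop s (w.drop i)] at h1
  exact h1.left

theorem block_mem {n : ℕ} {w : List Dir} (hw : w ∈ SW n) (i s q : ℕ) (hi : i < q)
    (hq : q * s ≤ n) : (w.drop (i * s)).take s ∈ SW s := by
  obtain ⟨hl, hS⟩ := mem_SW.1 hw
  rw [mem_SW]
  refine ⟨?_, saw_block w hS _ _⟩
  rw [List.length_take, List.length_drop, hl]
  have : (i + 1) * s ≤ q * s := Nat.mul_le_mul_right s hi
  have h2 : (i + 1) * s = i * s + s := by ring
  omega

/-- the choice of the length of the blocks -/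
theorem choice (C θ mu : ℝ) (hC : 1 ≤ C) (hθ : 0 < θ) (hθ1 : θ < 1) (hmu : 2.43 ≤ mu)
    (hmu4 : mu ≤ 4) : ∃ (κ : ℝ) (s : ℕ), 0 < κ ∧ 1 ≤ s ∧ C * (θ * mu) ^ s ≤ 4 ^ s ∧
      ((4 : ℝ) ^ s / (C * (θ * mu) ^ s)) ^ κ * (2 * (C * (θ * mu) ^ s)) ≤
        (Real.sqrt θ * mu) ^ s := by
  have hmu0 : 0 < mu := by linarith
  have htm : 0 < θ * mu := mul_pos hθ hmu0
  have htm4 : θ * mu < 4 := by nlinarith
  set L : ℝ := 4 / (θ * mu) with hL
  have hL1 : 1 < L := by
    rw [hL, lt_div_iff₀ htm]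
    linarith
  have hL0 : 0 < L := by linarith
  have hlL : 0 < Real.log L := Real.log_pos hL1
  have hlθ : Real.log θ < 0 := Real.log_neg hθ hθ1
  set κ : ℝ := (- Real.log θ) / (4 * Real.log L) with hκ
  have hκ0 : 0 < κ := by
    rw [hκ]
    apply div_pos (by linarith) (by linarith)
  -- `L ^ κ = θ ^ (-1/4)`
  set g : ℝ := Real.exp (-(Real.log θ) / 4) with hg
  have hg1 : 1 < g := by
    rw [hg]
    apply Real.one_lt_exp_iff.2
    linarith
  have hLκ : L ^ κ = g := by
    rw [Real.rpow_def_of_pos hL0, hg, hκ]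
    congr 1
    field_simp
  have hg4 : g ^ 4 * θ = 1 := by
    rw [hg, ← Real.exp_nat_mul]
    nth_rw 2 [← Real.exp_log hθ]
    rw [← Real.exp_add]
    have : ((4 : ℕ) : ℝ) * (-(Real.log θ) / 4) + Real.log θ = 0 := by
      push_cast
      ring
    rw [this, Real.exp_zero]
  have hg2 : g ^ 2 * Real.sqrt θ = 1 := by
    have h1 : 0 < g ^ 2 * Real.sqrt θ := by
      have := Real.sqrt_pos.2 hθ
      positivity
    have h2 : (g ^ 2 * Real.sqrt θ) ^ 2 = 1 := by
      rw [mul_pow, Real.sq_sqrt hθ.le]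
      linarith [hg4, (by ring : (g ^ 2) ^ 2 * θ = g ^ 4 * θ)]
    nlinarith
  obtain ⟨s1, hs1⟩ := pow_unbounded_of_one_lt C hL1
  obtain ⟨s2, hs2⟩ := pow_unbounded_of_one_lt (2 * C) hg1
  refine ⟨κ, max 1 (max s1 s2), hκ0, le_max_left _ _, ?_, ?_⟩
  · set s := max 1 (max s1 s2)
    have h1 : C ≤ L ^ s := hs1.le.trans
      (pow_le_pow_right₀ hL1.le ((le_max_left s1 s2).trans (le_max_right _ _)))
    have h2 : L ^ s * (θ * mu) ^ s = 4 ^ s := by
      rw [← mul_pow, hL, div_mul_cancel₀ _ htm.ne']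
    rw [← h2]
    exact mul_le_mul_of_nonneg_right h1 (by positivity)
  · set s := max 1 (max s1 s2)
    have h1 : 2 * C ≤ g ^ s := hs2.le.trans
      (pow_le_pow_right₀ hg1.le ((le_max_right s1 s2).trans (le_max_right _ _)))
    have h2 : (4 : ℝ) ^ s / (C * (θ * mu) ^ s) = L ^ s / C := by
      rw [hL, div_pow]
      field_simp
    have h3 : (L ^ s / C) ^ κ ≤ g ^ s := by
      calc (L ^ s / C) ^ κ ≤ (L ^ s) ^ κ := by
            apply Real.rpow_le_rpow (by positivity) _ hκ0.le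
            exact div_le_self (by positivity) hC
        _ = (L ^ κ) ^ s := by
            rw [← Real.rpow_natCast L s, ← Real.rpow_mul hL0.le, mul_comm, Real.rpow_mul hL0.le,
              Real.rpow_natCast]
        _ = g ^ s := by rw [hLκ]
    rw [h2]
    calc (L ^ s / C) ^ κ * (2 * (C * (θ * mu) ^ s)) ≤ g ^ s * (2 * (C * (θ * mu) ^ s)) :=
          mul_le_mul_of_nonneg_right h3 (by positivity)
      _ = (2 * C) * (g ^ s * (θ * mu) ^ s) := by ring
      _ ≤ g ^ s * (g ^ s * (θ * mu) ^ s) :=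
          mul_le_mul_of_nonneg_right h1 (by positivity)
      _ = (g ^ 2 * θ * mu) ^ s := by
          rw [← mul_pow, ← mul_pow]
          congr 1
          ring
      _ = (Real.sqrt θ * mu) ^ s := by
          congr 1
          have : g ^ 2 * θ = Real.sqrt θ := by
            nth_rw 1 [← Real.mul_self_sqrt hθ.le]
            rw [← mul_assoc, hg2, one_mul]
          rw [this]

theorem t (hgr : S_gr) (hcnt : S_cnt) (hpcs : S_pcs) : S_spl := by
  intro r k Q hQ hSK
  obtain ⟨a, ε, ha, hε, C0, θ, hC0, hθ, hθ1, hB⟩ := hSK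
  obtain ⟨hmu, hmu4, _, _⟩ := hgr
  set mu := H981.mu with hmudef
  have hmu0 : 0 < mu := by linarith
  obtain ⟨κ, s, hκ, hs, hs4, hcon⟩ := choice (max C0 1) θ mu (le_max_right _ _) hθ hθ1 hmu hmu4
  set C := max C0 1 with hCdef
  have hC1 : 1 ≤ C := le_max_right _ _
  set Bd : Finset (List Dir) := (SW s).filter (fun w => (occ Q w : ℝ) ≤ ε * s ∧
    ((EK r k w).card : ℝ) ≤ a * s) with hBd
  set β : ℝ := C * (θ * mu) ^ s with hβ
  have hβ0 : 0 < β := by positivity
  have hBdc : (Bd.card : ℝ) ≤ β := (hB s).trans (by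
    rw [hβ]
    exact mul_le_mul_of_nonneg_right (le_max_left _ _) (by positivity))
  have hsR : (1 : ℝ) ≤ s := by exact_mod_cast hs
  have hs0 : (0 : ℝ) < s := by linarith
  set θ' := Real.sqrt θ with hθ'
  have hθ'0 : 0 < θ' := Real.sqrt_pos.2 hθ
  have hθ'1 : θ' < 1 := by
    rw [hθ', Real.sqrt_lt' one_pos]
    simpa using hθ1
  have htm0 : 0 < θ' * mu := mul_pos hθ'0 hmu0
  have htm4 : θ' * mu ≤ 4 := by nlinarith
  refine ⟨s, a * κ / 4, ε * κ / 4, hs, by positivity, by positivity,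
    (4 / (θ' * mu)) ^ s, θ', by positivity, hθ'0, hθ'1, ?_⟩
  intro n
  obtain ⟨q, ρ, hρ, hn⟩ : ∃ q ρ, ρ < s ∧ q * s + ρ = n :=
    ⟨n / s, n % s, Nat.mod_lt _ (by omega), by rw [mul_comm]; exact Nat.div_add_mod n s⟩
  have hsub : (SW n).filter (fun w => (occ Q w : ℝ) ≤ ε * κ / 4 * n ∧
      ((EL r k s w).card : ℝ) ≤ a * κ / 4 * n) ⊆ (SW (q * s + ρ)).filter (fun w =>
      ((((range q).filter (fun i => (w.drop (i * s)).take s ∉ Bd)).card : ℕ) : ℝ) ≤ κ * q) := by
    intro w hw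
    rw [mem_filter] at hw ⊢
    obtain ⟨hw1, hw2, hw3⟩ := hw
    refine ⟨by rw [hn]; exact hw1, ?_⟩
    rcases Nat.eq_zero_or_pos q with hq | hq
    · subst hq
      simp
    have hlen : w.length = n := (mem_SW.1 hw1).1
    have hqs : q * s ≤ w.length := by rw [hlen]; omega
    obtain ⟨hp1, hp2⟩ := hpcs r k s q Q w hs hQ hqs
    -- every bad block has weight at least one
    have hbad : ∀ i ∈ (range q).filter (fun i => (w.drop (i * s)).take s ∉ Bd),
        (1 : ℝ) ≤ (occ Q ((w.drop (i * s)).take s) : ℝ) / (ε * s) +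
          ((EK r k ((w.drop (i * s)).take s)).card : ℝ) / (a * s) := by
      intro i hi
      rw [mem_filter, mem_range] at hi
      obtain ⟨hi1, hi2⟩ := hi
      have hm := block_mem hw1 i s q hi1 (by omega)
      rw [hBd, mem_filter] at hi2
      by_cases h1 : (occ Q ((w.drop (i * s)).take s) : ℝ) ≤ ε * s
      · have h2 : ¬ ((EK r k ((w.drop (i * s)).take s)).card : ℝ) ≤ a * s :=
          fun h => hi2 ⟨hm, h1, h⟩
        push Not at h2
        have h3 : (1 : ℝ) ≤ ((EK r k ((w.drop (i * s)).take s)).card : ℝ) / (a * s) := by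
          rw [le_div_iff₀ (by positivity)]
          linarith
        have h4 : (0 : ℝ) ≤ (occ Q ((w.drop (i * s)).take s) : ℝ) / (ε * s) := by positivity
        linarith
      · push Not at h1
        have h3 : (1 : ℝ) ≤ (occ Q ((w.drop (i * s)).take s) : ℝ) / (ε * s) := by
          rw [le_div_iff₀ (by positivity)]
          linarith
        have h4 : (0 : ℝ) ≤ ((EK r k ((w.drop (i * s)).take s)).card : ℝ) / (a * s) := by
          positivity
        linarith
    have h1 : ((((range q).filter (fun i => (w.drop (i * s)).take s ∉ Bd)).card : ℕ) : ℝ) ≤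
        ∑ i ∈ range q, ((occ Q ((w.drop (i * s)).take s) : ℝ) / (ε * s) +
          ((EK r k ((w.drop (i * s)).take s)).card : ℝ) / (a * s)) := by
      rw [card_eq_sum_ones]
      push_cast
      refine (sum_le_sum hbad).trans ?_
      apply sum_le_sum_of_subset_of_nonneg (filter_subset _ _)
      intro i _ _
      positivity
    have h2 : ∑ i ∈ range q, ((occ Q ((w.drop (i * s)).take s) : ℝ) / (ε * s) +
          ((EK r k ((w.drop (i * s)).take s)).card : ℝ) / (a * s)) ≤
        (occ Q w : ℝ) / (ε * s) + ((EL r k s w).card : ℝ) / (a * s) := by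
      rw [sum_add_distrib, ← sum_div, ← sum_div]
      apply add_le_add
      · apply div_le_div_of_nonneg_right _ (by positivity)
        exact_mod_cast hp1
      · apply div_le_div_of_nonneg_right _ (by positivity)
        exact_mod_cast hp2
    have h3 : (occ Q w : ℝ) / (ε * s) ≤ κ / 4 * (n / s) := by
      rw [div_le_iff₀ (by positivity)]
      calc (occ Q w : ℝ) ≤ ε * κ / 4 * n := hw2
        _ = κ / 4 * (n / s) * (ε * s) := by field_simp
    have h4 : ((EL r k s w).card : ℝ) / (a * s) ≤ κ / 4 * (n / s) := by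
      rw [div_le_iff₀ (by positivity)]
      calc ((EL r k s w).card : ℝ) ≤ a * κ / 4 * n := hw3
        _ = κ / 4 * (n / s) * (a * s) := by field_simp
    have h5 : (n : ℝ) / s ≤ 2 * q := by
      rw [div_le_iff₀ hs0]
      have : n ≤ 2 * q * s := by
        have : s ≤ q * s := Nat.le_mul_of_pos_left s hq
        nlinarith
      exact_mod_cast this
    nlinarith
  have hcard : (((SW n).filter (fun w => (occ Q w : ℝ) ≤ ε * κ / 4 * n ∧
      ((EL r k s w).card : ℝ) ≤ a * κ / 4 * n)).card : ℝ) ≤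
      (((4 : ℝ) ^ s / β) ^ κ * (2 * β)) ^ q * 4 ^ ρ := by
    refine le_trans ?_ (hcnt s Bd κ β hs (filter_subset _ _) hκ.le hβ0 hs4 hBdc q ρ)
    exact_mod_cast card_le_card hsub
  refine hcard.trans ?_
  have h1 : (((4 : ℝ) ^ s / β) ^ κ * (2 * β)) ^ q ≤ ((θ' * mu) ^ s) ^ q :=
    pow_le_pow_left₀ (by positivity) hcon q
  have h2 : (4 : ℝ) ^ ρ ≤ (4 / (θ' * mu)) ^ s * (θ' * mu) ^ ρ := by
    have h3 : (4 : ℝ) ^ ρ = (4 / (θ' * mu)) ^ ρ * (θ' * mu) ^ ρ := by
      rw [← mul_pow, div_mul_cancel₀ _ htm0.ne']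
    rw [h3]
    apply mul_le_mul_of_nonneg_right _ (by positivity)
    apply pow_le_pow_right₀ _ hρ.le
    rw [le_div_iff₀ htm0]
    linarith
  calc (((4 : ℝ) ^ s / β) ^ κ * (2 * β)) ^ q * 4 ^ ρ ≤
        ((θ' * mu) ^ s) ^ q * ((4 / (θ' * mu)) ^ s * (θ' * mu) ^ ρ) := by
        apply mul_le_mul h1 h2 (by positivity) (by positivity)
    _ = (4 / (θ' * mu)) ^ s * (θ' * mu) ^ n := by
        rw [← hn, pow_add, ← pow_mul, mul_comm s q]
        ring

end Pool.Agent.Q53.PT.SPL
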